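import Pool.Agent.H32.RQ.Targets

/-!
# (AQ1) the number of the forms which vanish at two vectors
-/

set_option autoImplicit false

open Finset Pool.Agent.H32.RQ

namespace Pool.Agent.H20.RQ

theorem char_sum (M : ℕ) [NeZero M] (u : ZMod M) :
    ∑ a : ZMod M, ZMod.stdAddChar (a * u) = if u = 0 then (M : ℂ) else 0 := by
  rw [AddChar.sum_mulShift u (ZMod.isPrimitive_stdAddChar M)]
  split_ifs <;> simp [ZMod.card]

theorem char_map_sum {ι R : Type} [CommRing R] (ψ : AddChar R ℂ) (t : Finset ι) (g : ι → R) :
    ψ (∑ i ∈ t, g i) = ∏ i ∈ t, ψ (g i) := by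
  classical
  induction t using Finset.induction_on with
  | empty => simp
  | insert a t ha ih => rw [Finset.sum_insert ha, Finset.prod_insert ha, AddChar.map_add_eq_mul, ih]

open Classical in
theorem pf_AQ1 : T_AQ1 := by
  intro s M _ x y
  have h1 : ∀ (f : Mon s → ZMod M) (a b : ZMod M),
      ZMod.stdAddChar (a * qf f x) * ZMod.stdAddChar (b * qf f y) =
        ∏ p, ZMod.stdAddChar (f p * (a * nu x p + b * nu y p)) := by
    intro f a b
    rw [← AddChar.map_add_eq_mul, ← char_map_sum]
    congr 1
    unfold qf nu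
    rw [Finset.mul_sum, Finset.mul_sum, ← Finset.sum_add_distrib]
    exact Finset.sum_congr rfl fun p _ => by ring
  have h2 : ∀ a b : ZMod M, ∑ f : Mon s → ZMod M,
      ∏ p, ZMod.stdAddChar (f p * (a * nu x p + b * nu y p)) =
        if ∀ p : Mon s, a * nu x p + b * nu y p = 0 then (M : ℂ) ^ md s else 0 := by
    intro a b
    have h3 := Finset.prod_univ_sum (fun _ : Mon s => (Finset.univ : Finset (ZMod M)))
      (fun p u => ZMod.stdAddChar (u * (a * nu x p + b * nu y p)))
    rw [Fintype.piFinset_univ] at h3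
    rw [← h3]
    simp only [char_sum]
    rw [Finset.prod_ite_zero]
    simp [md]
  have key : (((Finset.univ.filter fun f : Mon s → ZMod M => qf f x = 0 ∧ qf f y = 0).card *
      M ^ 2 : ℕ) : ℂ) = ((M ^ md s * (Finset.univ.filter fun q : ZMod M × ZMod M =>
        ∀ p : Mon s, q.1 * nu x p + q.2 * nu y p = 0).card : ℕ) : ℂ) := by
    rw [Finset.card_filter, Finset.card_filter]
    push_cast
    rw [Finset.sum_mul, Finset.mul_sum, Fintype.sum_prod_type]
    calc ∑ f : Mon s → ZMod M, (if qf f x = 0 ∧ qf f y = 0 then (1 : ℂ) else 0) * (M : ℂ) ^ 2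
        = ∑ f : Mon s → ZMod M, ∑ a : ZMod M, ∑ b : ZMod M,
            ZMod.stdAddChar (a * qf f x) * ZMod.stdAddChar (b * qf f y) := by
          refine Finset.sum_congr rfl fun f _ => ?_
          rw [← Finset.sum_mul_sum, char_sum, char_sum]
          by_cases hx : qf f x = 0
          · by_cases hy : qf f y = 0
            · simp [hx, hy, sq]
            · simp [hx, hy]
          · simp [hx]
      _ = ∑ a : ZMod M, ∑ b : ZMod M, ∑ f : Mon s → ZMod M,
            ZMod.stdAddChar (a * qf f x) * ZMod.stdAddChar (b * qf f y) := by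
          rw [Finset.sum_comm]
          exact Finset.sum_congr rfl fun a _ => Finset.sum_comm
      _ = _ := by
          refine Finset.sum_congr rfl fun a _ => Finset.sum_congr rfl fun b _ => ?_
          simp only [h1, h2]
          split_ifs <;> simp
  exact_mod_cast key

end Pool.Agent.H20.RQ
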