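import Pool.Agent.H32.RQ.Targets

/-!
# (AQ2) the sum of the squares of the correlations
-/

set_option autoImplicit false

open Finset Pool.Agent.H32.RQ

namespace Pool.Agent.H20.RQ

/-- the vanishing of all monomials, for all pairs of indices -/
theorem sym_zero {s M : ℕ} {x y : Fin s → ZMod M} {α β : ZMod M}
    (h : ∀ p : Mon s, α * nu x p + β * nu y p = 0) (i l : Fin s) :
    α * (x i * x l) + β * (y i * y l) = 0 := by
  rcases le_total i l with hil | hil
  · exact h ⟨(i, l), hil⟩
  · have := h ⟨(l, i), hil⟩
    unfold nu at this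
    linear_combination this

theorem fst_unique {s M : ℕ} {x y : Fin s → ZMod M} (hx : Prm x) {α α' β : ZMod M}
    (h : ∀ p : Mon s, α * nu x p + β * nu y p = 0)
    (h' : ∀ p : Mon s, α' * nu x p + β * nu y p = 0) : α = α' := by
  obtain ⟨a, ha⟩ := hx
  have h1 : ∀ i l, (α - α') * (x i * x l) = 0 := by
    intro i l
    linear_combination sym_zero h i l - sym_zero h' i l
  have h2 : (α - α') * ((∑ i, a i * x i) * (∑ l, a l * x l)) = 0 := by
    rw [Finset.sum_mul_sum, Finset.mul_sum]
    refine Finset.sum_eq_zero fun i _ => ?_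
    rw [Finset.mul_sum]
    refine Finset.sum_eq_zero fun l _ => ?_
    linear_combination a i * a l * h1 i l
  rw [ha, mul_one, mul_one] at h2
  exact sub_eq_zero.1 h2

theorem snd_ann {s M : ℕ} {x y : Fin s → ZMod M} {a : Fin s → ZMod M} (ha : ∑ i, a i * x i = 1)
    (hy : Prm y) {α β : ZMod M} (h : ∀ p : Mon s, α * nu x p + β * nu y p = 0) (i : Fin s) :
    β * (y i - (∑ j, a j * y j) * x i) = 0 := by
  obtain ⟨b, hb⟩ := hy
  have h1 : ∀ i, β * y i = -(α * (∑ l, b l * x l)) * x i := by
    intro i
    have h2 : ∑ l, b l * (α * (x i * x l) + β * (y i * y l)) = 0 :=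
      Finset.sum_eq_zero fun l _ => by rw [sym_zero h i l, mul_zero]
    have h3 : ∑ l, b l * (α * (x i * x l) + β * (y i * y l)) =
        α * x i * (∑ l, b l * x l) + β * y i * (∑ l, b l * y l) := by
      rw [Finset.mul_sum, Finset.mul_sum, ← Finset.sum_add_distrib]
      exact Finset.sum_congr rfl fun l _ => by ring
    rw [h3, hb, mul_one] at h2
    linear_combination h2
  have h4 : β * (∑ j, a j * y j) = -(α * (∑ l, b l * x l)) := by
    calc β * (∑ j, a j * y j) = ∑ j, a j * (β * y j) := by
          rw [Finset.mul_sum]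
          exact Finset.sum_congr rfl fun j _ => by ring
      _ = ∑ j, -(α * (∑ l, b l * x l)) * (a j * x j) := by
          refine Finset.sum_congr rfl fun j _ => ?_
          rw [h1 j]
          ring
      _ = -(α * (∑ l, b l * x l)) := by rw [← Finset.mul_sum, ha, mul_one]
  linear_combination h1 i - x i * h4

/-- the gcd of `M` and the coordinates of `z` -/
def hg {s M : ℕ} (z : Fin s → ZMod M) : ℕ := Nat.gcd M (Finset.univ.gcd fun i => (z i).val)

theorem hg_dvd {s M : ℕ} (z : Fin s → ZMod M) : hg z ∣ M := Nat.gcd_dvd_left _ _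

theorem hg_dvd_val {s M : ℕ} (z : Fin s → ZMod M) (i : Fin s) : hg z ∣ (z i).val :=
  (Nat.gcd_dvd_right _ _).trans (Finset.gcd_dvd (Finset.mem_univ i))

theorem ann_card {s M : ℕ} [NeZero M] (z : Fin s → ZMod M) :
    (Finset.univ.filter fun β : ZMod M => ∀ i, β * z i = 0).card ≤ hg z := by
  have hM : 0 < M := Nat.pos_of_ne_zero (NeZero.ne M)
  have hpos : 0 < hg z := Nat.pos_of_dvd_of_pos (hg_dvd z) hM
  obtain ⟨k, hk⟩ := hg_dvd z
  have hk0 : 0 < k := by
    rcases Nat.eq_zero_or_pos k with h | h
    · rw [h, mul_zero] at hk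
      omega
    · exact h
  have key : ∀ β : ZMod M, (∀ i, β * z i = 0) → k ∣ β.val := by
    intro β hβ
    have h1 : M ∣ β.val * hg z := by
      have h2 : M ∣ Finset.univ.gcd fun i => β.val * (z i).val := by
        refine Finset.dvd_gcd fun i _ => ?_
        rw [← ZMod.natCast_eq_zero_iff]
        push_cast
        rw [ZMod.natCast_zmod_val, ZMod.natCast_zmod_val]
        exact hβ i
      rw [Finset.gcd_mul_left, normalize_eq] at h2
      unfold hg
      rw [← Nat.gcd_mul_left]
      exact Nat.dvd_gcd (Dvd.intro_left _ rfl) h2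
    have h2 : hg z * k ∣ hg z * β.val := by rw [← hk, mul_comm (hg z)]; exact h1
    exact Nat.dvd_of_mul_dvd_mul_left hpos h2
  calc (Finset.univ.filter fun β : ZMod M => ∀ i, β * z i = 0).card
      ≤ (Finset.range (hg z)).card := by
        refine Finset.card_le_card_of_injOn (fun β => β.val / k) (fun β hβ => ?_)
          fun β hβ β' hβ' h => ?_
        · have h3 := β.val_lt
          simp only [Finset.coe_range, Set.mem_Iio]
          rw [Nat.div_lt_iff_lt_mul hk0]
          omega
        · have h3 := key β (by simpa using hβ)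
          have h4 := key β' (by simpa using hβ')
          have h5 : β.val / k = β'.val / k := h
          have h6 : β.val = β'.val := by
            rw [← Nat.div_mul_cancel h3, ← Nat.div_mul_cancel h4, h5]
          exact ZMod.val_injective M h6
    _ = hg z := Finset.card_range _

/-- the residues modulo `M` which are `v` modulo `h` -/
theorem fib_card {M h : ℕ} [NeZero M] (hh : h ∣ M) (v : ℕ) :
    (Finset.univ.filter fun t : ZMod M => t.val ≡ v [MOD h]).card ≤ M / h := by
  have hM : 0 < M := Nat.pos_of_ne_zero (NeZero.ne M)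
  have hpos : 0 < h := Nat.pos_of_dvd_of_pos hh hM
  calc (Finset.univ.filter fun t : ZMod M => t.val ≡ v [MOD h]).card
      ≤ (Finset.range (M / h)).card := by
        refine Finset.card_le_card_of_injOn (fun t => t.val / h) (fun t ht => ?_)
          fun t ht t' ht' he => ?_
        · simp only [Finset.coe_range, Set.mem_Iio]
          exact Nat.div_lt_div_of_lt_of_dvd hh t.val_lt
        · have h1 : t.val ≡ v [MOD h] := by simpa using ht
          have h2 : t'.val ≡ v [MOD h] := by simpa using ht'
          have h3 : t.val % h = t'.val % h := h1.trans h2.symm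
          have h4 : t.val / h = t'.val / h := he
          have h5 : t.val = t'.val := by
            rw [← Nat.div_add_mod t.val h, ← Nat.div_add_mod t'.val h, h3, h4]
          exact ZMod.val_injective M h5
    _ = M / h := Finset.card_range _

theorem cls_card {s M h : ℕ} [NeZero M] (hh : h ∣ M) (x a : Fin s → ZMod M) :
    (Finset.univ.filter fun y : Fin s → ZMod M =>
      ∀ i, h ∣ (y i - (∑ j, a j * y j) * x i).val).card ≤ h * (M / h) ^ s := by
  have hM : 0 < M := Nat.pos_of_ne_zero (NeZero.ne M)
  have hpos : 0 < h := Nat.pos_of_dvd_of_pos hh hM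
  have hcong : ∀ u v : ZMod M, h ∣ (u - v).val → u.val ≡ v.val [MOD h] := by
    intro u v hd
    have h1 : u = (u - v) + v := by ring
    have h2 : u.val ≡ (u - v).val + v.val [MOD M] := by
      have h3 : ((u.val : ℕ) : ZMod M) = (((u - v).val + v.val : ℕ) : ZMod M) := by
        push_cast
        rw [ZMod.natCast_zmod_val, ZMod.natCast_zmod_val, ZMod.natCast_zmod_val]
        exact h1
      exact (ZMod.natCast_eq_natCast_iff _ _ _).1 h3
    have h4 : u.val ≡ (u - v).val + v.val [MOD h] := h2.of_dvd hh
    have h5 : (u - v).val + v.val ≡ 0 + v.val [MOD h] :=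
      ((Nat.modEq_zero_iff_dvd).2 hd).add_right _
    rw [zero_add] at h5
    exact h4.trans h5
  have hmul : ∀ u v : ZMod M, (u * v).val ≡ (u.val % h) * v.val [MOD h] := by
    intro u v
    have h2 : (u * v).val ≡ u.val * v.val [MOD M] := by
      have h3 : (((u * v).val : ℕ) : ZMod M) = ((u.val * v.val : ℕ) : ZMod M) := by
        push_cast
        rw [ZMod.natCast_zmod_val, ZMod.natCast_zmod_val, ZMod.natCast_zmod_val]
      exact (ZMod.natCast_eq_natCast_iff _ _ _).1 h3
    exact (h2.of_dvd hh).trans ((Nat.mod_modEq _ _).symm.mul_right _)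
  calc (Finset.univ.filter fun y : Fin s → ZMod M =>
      ∀ i, h ∣ (y i - (∑ j, a j * y j) * x i).val).card
      ≤ ((Finset.range h).biUnion fun c => Fintype.piFinset fun i =>
          Finset.univ.filter fun t : ZMod M => t.val ≡ c * (x i).val [MOD h]).card := by
        refine Finset.card_le_card fun y hy => ?_
        have hy' : ∀ i, h ∣ (y i - (∑ j, a j * y j) * x i).val := by simpa using hy
        refine Finset.mem_biUnion.2 ⟨(∑ j, a j * y j).val % h,
          Finset.mem_range.2 (Nat.mod_lt _ hpos), ?_⟩
        refine Fintype.mem_piFinset.2 fun i => ?_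
        rw [Finset.mem_filter]
        exact ⟨Finset.mem_univ _, (hcong _ _ (hy' i)).trans (hmul _ _)⟩
    _ ≤ ∑ c ∈ Finset.range h, (Fintype.piFinset fun i =>
          Finset.univ.filter fun t : ZMod M => t.val ≡ c * (x i).val [MOD h]).card :=
        Finset.card_biUnion_le
    _ ≤ ∑ c ∈ Finset.range h, (M / h) ^ s := by
        refine Finset.sum_le_sum fun c _ => ?_
        rw [Fintype.card_piFinset]
        calc ∏ i, (Finset.univ.filter fun t : ZMod M => t.val ≡ c * (x i).val [MOD h]).card
            ≤ ∏ _i : Fin s, M / h := Finset.prod_le_prod' fun i _ => fib_card hh _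
          _ = (M / h) ^ s := by simp
    _ = h * (M / h) ^ s := by simp

open Classical in
theorem pf_AQ2 : T_AQ2 := by
  intro s M _ x hx
  obtain ⟨a, ha⟩ := hx
  have hM : 0 < M := Nat.pos_of_ne_zero (NeZero.ne M)
  set zz : (Fin s → ZMod M) → Fin s → ZMod M := fun y i => y i - (∑ j, a j * y j) * x i with hzz
  have h1 : ∀ y : Fin s → ZMod M, Prm y → (Finset.univ.filter fun q : ZMod M × ZMod M =>
      ∀ p : Mon s, q.1 * nu x p + q.2 * nu y p = 0).card ≤ hg (zz y) := by
    intro y hy
    refine le_trans ?_ (ann_card (zz y))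
    refine Finset.card_le_card_of_injOn Prod.snd (fun q hq => ?_) fun q hq q' hq' he => ?_
    · have h2 : ∀ p : Mon s, q.1 * nu x p + q.2 * nu y p = 0 := by simpa using hq
      simp only [Finset.coe_filter, Finset.mem_univ, true_and, Set.mem_setOf_eq]
      exact fun i => snd_ann ha hy h2 i
    · have h2 : ∀ p : Mon s, q.1 * nu x p + q.2 * nu y p = 0 := by simpa using hq
      have h3 : ∀ p : Mon s, q'.1 * nu x p + q'.2 * nu y p = 0 := by simpa using hq'
      rw [← he] at h3
      exact Prod.ext (fst_unique ⟨a, ha⟩ h2 h3) he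
  calc ∑ y ∈ Finset.univ.filter (fun y : Fin s → ZMod M => Prm y),
      ((Finset.univ.filter fun q : ZMod M × ZMod M =>
        ∀ p : Mon s, q.1 * nu x p + q.2 * nu y p = 0).card : ℝ) ^ 2
      ≤ ∑ y ∈ Finset.univ.filter (fun y : Fin s → ZMod M => Prm y), ((hg (zz y) : ℕ) : ℝ) ^ 2 := by
        refine Finset.sum_le_sum fun y hy => ?_
        have h2 := h1 y (by simpa using hy)
        have h3 : ((Finset.univ.filter fun q : ZMod M × ZMod M =>
          ∀ p : Mon s, q.1 * nu x p + q.2 * nu y p = 0).card : ℝ) ≤ ((hg (zz y) : ℕ) : ℝ) := by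
          exact_mod_cast h2
        exact pow_le_pow_left₀ (Nat.cast_nonneg _) h3 2
    _ ≤ ∑ y : Fin s → ZMod M, ((hg (zz y) : ℕ) : ℝ) ^ 2 :=
        Finset.sum_le_univ_sum_of_nonneg fun y => by positivity
    _ = ∑ h ∈ M.divisors, ∑ y ∈ Finset.univ.filter (fun y : Fin s → ZMod M => hg (zz y) = h),
          ((hg (zz y) : ℕ) : ℝ) ^ 2 := by
        rw [Finset.sum_fiberwise_of_maps_to fun y _ => ?_]
        exact Nat.mem_divisors.2 ⟨hg_dvd _, hM.ne'⟩
    _ ≤ ∑ h ∈ M.divisors, (h : ℝ) ^ 2 * (h * ((M : ℝ) / h) ^ s) := by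
        refine Finset.sum_le_sum fun h hh => ?_
        have hd : h ∣ M := (Nat.mem_divisors.1 hh).1
        calc ∑ y ∈ Finset.univ.filter (fun y : Fin s → ZMod M => hg (zz y) = h),
              ((hg (zz y) : ℕ) : ℝ) ^ 2
            = ∑ y ∈ Finset.univ.filter (fun y : Fin s → ZMod M => hg (zz y) = h), (h : ℝ) ^ 2 := by
              refine Finset.sum_congr rfl fun y hy => ?_
              rw [(Finset.mem_filter.1 hy).2]
          _ = (h : ℝ) ^ 2 *
              ((Finset.univ.filter (fun y : Fin s → ZMod M => hg (zz y) = h)).card : ℝ) := by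
              rw [Finset.sum_const, nsmul_eq_mul, mul_comm]
          _ ≤ (h : ℝ) ^ 2 * (h * ((M : ℝ) / h) ^ s) := by
              refine mul_le_mul_of_nonneg_left ?_ (by positivity)
              have h2 : (Finset.univ.filter (fun y : Fin s → ZMod M => hg (zz y) = h)).card ≤
                  h * (M / h) ^ s := by
                refine le_trans (Finset.card_le_card fun y hy => ?_) (cls_card hd x a)
                have h3 := (Finset.mem_filter.1 hy).2
                rw [Finset.mem_filter]
                refine ⟨Finset.mem_univ _, fun i => ?_⟩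
                have h4 := hg_dvd_val (zz y) i
                rw [h3] at h4
                exact h4
              calc ((Finset.univ.filter (fun y : Fin s → ZMod M => hg (zz y) = h)).card : ℝ)
                  ≤ ((h * (M / h) ^ s : ℕ) : ℝ) := by exact_mod_cast h2
                _ = h * ((M : ℝ) / h) ^ s := by
                    have h5 : h ≠ 0 := by
                      rintro rfl
                      exact hM.ne' (Nat.eq_zero_of_zero_dvd hd)
                    push_cast [Nat.cast_div hd (by exact_mod_cast h5 : (h : ℝ) ≠ 0)]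
                    ring
    _ = (M : ℝ) ^ s * ∑ h ∈ M.divisors, (h : ℝ) ^ 3 / (h : ℝ) ^ s := by
        rw [Finset.mul_sum]
        refine Finset.sum_congr rfl fun h _ => ?_
        rw [div_pow]
        ring

end Pool.Agent.H20.RQ
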