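import Pool.Agent.H32.RQ.Targets

/-!
# (SIE) primitive vectors in a cube, in a residue class
-/

set_option autoImplicit false

open Finset Pool.Agent.H32.RQ

namespace Pool.Agent.H20.RQ

/-- the integers between `u` and `u + L` which are `v` modulo `m` -/
noncomputable def TT (u L : ℝ) (m : ℕ) (v : ℤ) : Finset ℤ :=
  (Finset.Icc ⌈(u - v) / m⌉ ⌊(u + L - v) / m⌋).image fun k => v + m * k

theorem mem_TT {u L : ℝ} {m : ℕ} (hm : 0 < m) {v n : ℤ} :
    n ∈ TT u L m v ↔ (u ≤ n ∧ (n : ℝ) ≤ u + L) ∧ (m : ℤ) ∣ n - v := by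
  have hm' : (0 : ℝ) < m := by exact_mod_cast hm
  unfold TT
  simp only [Finset.mem_image, Finset.mem_Icc, Int.ceil_le, Int.le_floor]
  constructor
  · rintro ⟨k, ⟨h1, h2⟩, rfl⟩
    rw [div_le_iff₀ hm'] at h1
    rw [le_div_iff₀ hm'] at h2
    push_cast
    refine ⟨⟨by linarith, by linarith⟩, ⟨k, by ring⟩⟩
  · rintro ⟨⟨h1, h2⟩, k, hk⟩
    have h3 : (n : ℝ) = v + m * k := by
      have : n = v + m * k := by linarith
      rw [this]
      push_cast
      ring
    refine ⟨k, ⟨?_, ?_⟩, by linarith⟩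
    · rw [div_le_iff₀ hm']
      linarith
    · rw [le_div_iff₀ hm']
      linarith

theorem card_TT (u L : ℝ) {m : ℕ} (hm : 0 < m) (v : ℤ) :
    (TT u L m v).card = (⌊(u + L - v) / m⌋ + 1 - ⌈(u - v) / m⌉).toNat := by
  unfold TT
  rw [Finset.card_image_of_injective, Int.card_Icc]
  intro k k' h
  have h' : v + (m : ℤ) * k = v + m * k' := h
  have hm' : (m : ℤ) ≠ 0 := by exact_mod_cast hm.ne'
  exact mul_left_cancel₀ hm' (add_left_cancel h')

theorem card_TT_ge (u L : ℝ) {m : ℕ} (hm : 0 < m) (v : ℤ) : L / m - 1 ≤ (TT u L m v).card := by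
  have hm' : (0 : ℝ) < m := by exact_mod_cast hm
  rw [card_TT u L hm v]
  have h1 := Int.lt_floor_add_one ((u + L - v) / m)
  have h2 := Int.ceil_lt_add_one ((u - v) / m)
  have h3 : (u + L - v) / m = L / m + (u - v) / m := by ring
  have h4 : ((⌊(u + L - v) / m⌋ + 1 - ⌈(u - v) / m⌉ : ℤ) : ℝ) ≤
      ((⌊(u + L - v) / m⌋ + 1 - ⌈(u - v) / m⌉).toNat : ℝ) := by
    exact_mod_cast Int.self_le_toNat _
  push_cast at h4
  linarith

theorem card_TT_le (u : ℝ) {L : ℝ} (hL : 0 ≤ L) {m : ℕ} (hm : 0 < m) (v : ℤ) :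
    ((TT u L m v).card : ℝ) ≤ L / m + 1 := by
  have hm' : (0 : ℝ) < m := by exact_mod_cast hm
  rw [card_TT u L hm v]
  have h1 := Int.floor_le ((u + L - v) / m)
  have h2 := Int.le_ceil ((u - v) / m)
  have h3 : (u + L - v) / m = L / m + (u - v) / m := by ring
  have h5 : 0 ≤ L / m := by positivity
  rcases le_total 0 (⌊(u + L - v) / m⌋ + 1 - ⌈(u - v) / m⌉) with h | h
  · have h4 : (((⌊(u + L - v) / m⌋ + 1 - ⌈(u - v) / m⌉).toNat : ℤ) : ℝ) =
        ((⌊(u + L - v) / m⌋ + 1 - ⌈(u - v) / m⌉ : ℤ) : ℝ) := by rw [Int.toNat_of_nonneg h]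
    push_cast at h4
    rw [h4]
    linarith
  · rw [Int.toNat_of_nonpos h]
    push_cast
    linarith

/-- two classes together -/
theorem card_TT_dvd (u : ℝ) {L : ℝ} (hL : 0 ≤ L) {m p : ℕ} (hm : 0 < m) (hp : 0 < p)
    (hc : Nat.Coprime m p) (v : ℤ) :
    (((TT u L m v).filter fun n => (p : ℤ) ∣ n).card : ℝ) ≤ L / (m * p) + 1 := by
  have h5 : 0 ≤ L / ((m : ℝ) * p) := by positivity
  rcases ((TT u L m v).filter fun n => (p : ℤ) ∣ n).eq_empty_or_nonempty with h | ⟨r, hr⟩
  · rw [h]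
    simp
    linarith
  · have hmp : 0 < m * p := Nat.mul_pos hm hp
    have h1 : ((TT u L m v).filter fun n => (p : ℤ) ∣ n) ⊆ TT u L (m * p) r := by
      intro n hn
      rw [Finset.mem_filter, mem_TT hm] at hn hr
      rw [mem_TT hmp]
      refine ⟨hn.1.1, ?_⟩
      have h2 : (m : ℤ) ∣ n - r := by
        have := dvd_sub hn.1.2 hr.1.2
        rwa [sub_sub_sub_cancel_right] at this
      have h3 : (p : ℤ) ∣ n - r := dvd_sub hn.2 hr.2
      push_cast
      exact (Nat.isCoprime_iff_coprime.2 hc).mul_dvd h2 h3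
    calc (((TT u L m v).filter fun n => (p : ℤ) ∣ n).card : ℝ) ≤ (TT u L (m * p) r).card := by
          exact_mod_cast Finset.card_le_card h1
      _ ≤ L / ((m * p : ℕ) : ℝ) + 1 := card_TT_le u hL hmp r
      _ = L / (m * p) + 1 := by push_cast; ring

/-- a vector which is not primitive is divisible by a prime -/
theorem exists_prime {s : ℕ} {x : Fin s → ℤ} (h : ¬ Prm x) :
    ∃ p : ℕ, p.Prime ∧ ∀ j, (p : ℤ) ∣ x j := by
  obtain ⟨g, hg⟩ := (IsPrincipalIdealRing.principal (Ideal.span (Set.range x))).principal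
  have h1 : g.natAbs ≠ 1 := by
    intro h1
    apply h
    have h2 : IsUnit g := Int.isUnit_iff_natAbs_eq.2 h1
    have h3 : (1 : ℤ) ∈ Ideal.span (Set.range x) := by
      rw [hg]
      rw [Ideal.submodule_span_eq, Ideal.span_singleton_eq_top.2 h2]
      trivial
    rw [Ideal.mem_span_range_iff_exists_fun] at h3
    obtain ⟨c, hc⟩ := h3
    exact ⟨c, hc⟩
  obtain ⟨p, hp, hpg⟩ := Nat.exists_prime_and_dvd h1
  refine ⟨p, hp, fun j => ?_⟩
  have h2 : x j ∈ Ideal.span (Set.range x) := Ideal.subset_span ⟨j, rfl⟩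
  rw [hg, Ideal.submodule_span_eq, Ideal.mem_span_singleton] at h2
  exact (Int.natCast_dvd.2 hpg).trans h2

theorem sum_sq_le (P : ℕ) : ∑ n ∈ Finset.Icc 5 P, 1 / (n : ℝ) ^ 2 ≤ 1 / 4 := by
  have h : ∀ P : ℕ, 4 ≤ P → ∑ n ∈ Finset.Icc 5 P, 1 / (n : ℝ) ^ 2 ≤ 1 / 4 - 1 / (P : ℝ) := by
    intro P hP
    induction P, hP using Nat.le_induction with
    | base => simp
    | succ k hk ih =>
      rw [← Finset.insert_Icc_right_eq_Icc_add_one (by omega), Finset.sum_insert (by simp)]
      have hk' : (4 : ℝ) ≤ k := by exact_mod_cast hk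
      have h1 : 1 / (((k + 1 : ℕ) : ℝ)) ^ 2 ≤ 1 / (k : ℝ) - 1 / ((k + 1 : ℕ) : ℝ) := by
        push_cast
        rw [div_sub_div _ _ (by positivity) (by positivity), div_le_div_iff₀ (by positivity)
          (by positivity)]
        nlinarith
      linarith
  rcases le_or_gt 4 P with hP | hP
  · have := h P hP
    have h2 : (0 : ℝ) ≤ 1 / (P : ℝ) := by positivity
    linarith
  · rw [Finset.Icc_eq_empty (by omega)]
    simp

theorem sum_pow_le {s : ℕ} (hs : 6 ≤ s) (P : ℕ) :
    (2 : ℝ) ^ s * ∑ n ∈ Finset.Icc 5 P, 1 / (n : ℝ) ^ s ≤ 16 / 625 := by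
  obtain ⟨t, rfl⟩ : ∃ t, s = t + 2 := ⟨s - 2, by omega⟩
  have ht : 4 ≤ t := by omega
  have h1 : ∑ n ∈ Finset.Icc 5 P, 1 / (n : ℝ) ^ (t + 2) ≤
      1 / 5 ^ t * ∑ n ∈ Finset.Icc 5 P, 1 / (n : ℝ) ^ 2 := by
    rw [Finset.mul_sum]
    refine Finset.sum_le_sum fun n hn => ?_
    have h2 : (5 : ℝ) ≤ n := by exact_mod_cast (Finset.mem_Icc.1 hn).1
    rw [pow_add, ← one_div_mul_one_div]
    refine mul_le_mul_of_nonneg_right ?_ (by positivity)
    exact one_div_le_one_div_of_le (by positivity) (pow_le_pow_left₀ (by norm_num) h2 t)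
  have h2 := sum_sq_le P
  have h3 : (2 / 5 : ℝ) ^ t ≤ (2 / 5) ^ 4 := pow_le_pow_of_le_one (by norm_num) (by norm_num) ht
  calc (2 : ℝ) ^ (t + 2) * ∑ n ∈ Finset.Icc 5 P, 1 / (n : ℝ) ^ (t + 2)
      ≤ (2 : ℝ) ^ (t + 2) * (1 / 5 ^ t * (1 / 4)) := by
        refine mul_le_mul_of_nonneg_left (h1.trans ?_) (by positivity)
        exact mul_le_mul_of_nonneg_left h2 (by positivity)
    _ = (2 / 5 : ℝ) ^ t := by
        rw [div_pow, pow_add]
        ring
    _ ≤ 16 / 625 := by
        refine h3.trans ?_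
        norm_num

open Classical in
theorem pf_SIE : T_SIE := by
  intro s W w κ hs hw hW hpr hκ
  have hWr : (1 : ℝ) ≤ W := by exact_mod_cast hW
  have hW0 : 0 < W := hW
  have : NeZero W := ⟨hW0.ne'⟩
  have h2W : 2 ∣ W := hpr 2 Nat.prime_two (by omega)
  have hW2 : 2 ≤ W := Nat.le_of_dvd hW0 h2W
  refine ⟨max 1 (max (10 * s * W) (20 * 2 ^ s * (κ + 2) * W ^ s)), ?_⟩
  intro L hL u hu a ha
  have hL1 : 1 ≤ L := (le_max_left _ _).trans hL
  have hL2 : 10 * s * W ≤ L := (le_max_left _ _).trans ((le_max_right _ _).trans hL)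
  have hL3 : 20 * 2 ^ s * (κ + 2) * W ^ s ≤ L :=
    (le_max_right _ _).trans ((le_max_right _ _).trans hL)
  have hs' : (6 : ℝ) ≤ s := by exact_mod_cast hs
  have hLW : 0 < L / W := by positivity
  set X : Finset (Fin s → ℤ) := Fintype.piFinset fun j => TT (u j) L W ((a j).val : ℤ) with hX
  have hmem : ∀ x : Fin s → ℤ, x ∈ X ↔
      (∀ j, u j ≤ x j ∧ x j ≤ u j + L) ∧ ∀ j, (x j : ZMod W) = a j := by
    intro x
    rw [hX, Fintype.mem_piFinset]
    constructor
    · intro h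
      refine ⟨fun j => ((mem_TT hW0).1 (h j)).1, fun j => ?_⟩
      have h1 := ((mem_TT hW0).1 (h j)).2
      have h2 := (ZMod.intCast_eq_intCast_iff_dvd_sub ((a j).val : ℤ) (x j) W).2 h1
      rw [← h2]
      push_cast
      exact ZMod.natCast_zmod_val _
    · rintro ⟨h1, h2⟩ j
      refine (mem_TT hW0).2 ⟨h1 j, ?_⟩
      refine (ZMod.intCast_eq_intCast_iff_dvd_sub ((a j).val : ℤ) (x j) W).1 ?_
      rw [h2 j]
      push_cast
      exact ZMod.natCast_zmod_val _
  have hset : {x : Fin s → ℤ | (∀ j, u j ≤ x j ∧ x j ≤ u j + L) ∧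
      (∀ j, (x j : ZMod W) = a j) ∧ Prm x} = ↑(X.filter fun x => Prm x) := by
    ext x
    rw [Set.mem_ofPred_eq, Finset.coe_filter, Set.mem_ofPred_eq, hmem x, and_assoc]
  rw [hset]
  refine ⟨Finset.finite_toSet _, ?_⟩
  rw [Set.ncard_coe_finset]
  -- all vectors
  have hall : (9 / 10 : ℝ) * (L / W) ^ s ≤ X.card := by
    have h1 : (1 - W / L) ^ s * (L / W) ^ s = (L / W - 1) ^ s := by
      rw [← mul_pow]
      congr 1
      field_simp
    have h2 : (9 / 10 : ℝ) ≤ (1 - W / L) ^ s := by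
      have h3 := one_add_mul_le_pow (a := -(W / L)) (by
        have : (W : ℝ) / L ≤ 1 := by
          rw [div_le_one (by linarith)]
          nlinarith
        linarith) s
      have h4 : (s : ℝ) * (W / L) ≤ 1 / 10 := by
        rw [← mul_div_assoc, div_le_iff₀ (by linarith)]
        linarith
      calc (9 / 10 : ℝ) ≤ 1 + s * -(W / L) := by linarith
        _ ≤ (1 + -(W / L)) ^ s := h3
        _ = (1 - W / L) ^ s := by ring
    have h5 : 0 ≤ L / W - 1 := by
      rw [sub_nonneg, le_div_iff₀ (by positivity)]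
      nlinarith
    calc (9 / 10 : ℝ) * (L / W) ^ s ≤ (1 - W / L) ^ s * (L / W) ^ s :=
          mul_le_mul_of_nonneg_right h2 (by positivity)
      _ = (L / W - 1) ^ s := h1
      _ = ∏ _j : Fin s, (L / W - 1) := by simp
      _ ≤ ∏ j, ((TT (u j) L W ((a j).val : ℤ)).card : ℝ) :=
          Finset.prod_le_prod (fun _ _ => h5) fun j _ => card_TT_ge _ _ hW0 _
      _ = X.card := by
          rw [hX, Fintype.card_piFinset]
          push_cast
          rfl
  -- the vectors which are not primitive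
  set P : ℕ := ⌊(κ + 1) * L⌋₊ with hP
  have hbad : X.filter (fun x => ¬ Prm x) ⊆
      ((Finset.Icc 5 P).filter fun p => p.Prime ∧ Nat.Coprime W p).biUnion fun p =>
        Fintype.piFinset fun j => (TT (u j) L W ((a j).val : ℤ)).filter fun n => (p : ℤ) ∣ n := by
    intro x hx
    rw [Finset.mem_filter] at hx
    obtain ⟨hx1, hx2⟩ := hx
    obtain ⟨p, hp, hpx⟩ := exists_prime hx2
    have hxa := (hmem x).1 hx1
    obtain ⟨b, hb⟩ := ha
    have hpW : ¬ p ∣ W := by
      intro hd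
      have : Fact p.Prime := ⟨hp⟩
      have h1 := congrArg (ZMod.castHom hd (ZMod p)) hb
      rw [map_sum, map_one] at h1
      have h2 : ∀ i, ZMod.castHom hd (ZMod p) (b i * a i) = 0 := by
        intro i
        rw [map_mul, ← hxa.2 i, map_intCast, (ZMod.intCast_zmod_eq_zero_iff_dvd (x i) p).2 (hpx i),
          mul_zero]
      rw [Finset.sum_eq_zero fun i _ => h2 i] at h1
      exact zero_ne_one h1
    have hpw : w < p := by
      by_contra h
      exact hpW (hpr p hp (by omega))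
    have hx0 : ∃ j, x j ≠ 0 := by
      by_contra h
      push Not at h
      have h1 : ∀ j, a j = 0 := fun j => by rw [← hxa.2 j, h j, Int.cast_zero]
      rw [Finset.sum_eq_zero fun i _ => by rw [h1 i, mul_zero]] at hb
      have : Fact (1 < W) := ⟨by omega⟩
      exact zero_ne_one hb
    obtain ⟨j, hj⟩ := hx0
    have hpP : p ≤ P := by
      have h1 : (p : ℤ) ≤ |x j| := Int.le_of_dvd (abs_pos.2 hj) ((dvd_abs _ _).2 (hpx j))
      have h2 : ((|x j| : ℤ) : ℝ) ≤ (κ + 1) * L := by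
        have h3 := hxa.1 j
        have h4 := abs_le.1 (hu j)
        push_cast
        rw [abs_le]
        constructor <;> nlinarith
      refine Nat.le_floor ?_
      have h5 : ((p : ℤ) : ℝ) ≤ ((|x j| : ℤ) : ℝ) := by exact_mod_cast h1
      push_cast at h5
      push_cast at h2
      exact h5.trans h2
    rw [Finset.mem_biUnion]
    refine ⟨p, ?_, ?_⟩
    · rw [Finset.mem_filter, Finset.mem_Icc]
      exact ⟨⟨by omega, hpP⟩, hp, ((Nat.Prime.coprime_iff_not_dvd hp).2 hpW).symm⟩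
    · rw [Fintype.mem_piFinset]
      intro i
      rw [Finset.mem_filter]
      exact ⟨(Fintype.mem_piFinset.1 hx1) i, hpx i⟩
  have hone : ∀ p ∈ (Finset.Icc 5 P).filter fun p => p.Prime ∧ Nat.Coprime W p,
      ((Fintype.piFinset fun j => (TT (u j) L W ((a j).val : ℤ)).filter
        fun n => (p : ℤ) ∣ n).card : ℝ) ≤ 2 ^ s * ((L / W) ^ s * (1 / (p : ℝ) ^ s)) + 2 ^ s := by
    intro p hp
    rw [Finset.mem_filter, Finset.mem_Icc] at hp
    obtain ⟨⟨hp5, -⟩, hpp, hpc⟩ := hp
    have hp0 : 0 < p := by omega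
    have hp0' : (0 : ℝ) < p := by exact_mod_cast hp0
    have h1 : ((Fintype.piFinset fun j => (TT (u j) L W ((a j).val : ℤ)).filter
        fun n => (p : ℤ) ∣ n).card : ℝ) ≤ (L / (W * p) + 1) ^ s := by
      rw [Fintype.card_piFinset]
      push_cast
      calc ∏ j, (((TT (u j) L W ((a j).val : ℤ)).filter fun n => (p : ℤ) ∣ n).card : ℝ)
          ≤ ∏ _j : Fin s, (L / (W * p) + 1) :=
            Finset.prod_le_prod (fun _ _ => Nat.cast_nonneg _) fun j _ =>
              card_TT_dvd _ (by linarith) hW0 hp0 hpc _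
        _ = (L / (W * p) + 1) ^ s := by simp
    refine h1.trans ?_
    have h2 : 0 ≤ L / (W * p) := by positivity
    have h3 : (L / W) ^ s * (1 / (p : ℝ) ^ s) = (L / (W * p)) ^ s := by
      rw [← one_div_pow, ← mul_pow]
      congr 1
      field_simp
    rw [h3]
    set y := L / (W * p) with hy
    rcases le_total y 1 with h | h
    · have h4 : (y + 1) ^ s ≤ 2 ^ s := pow_le_pow_left₀ (by linarith) (by linarith) s
      have h5 : 0 ≤ (2 : ℝ) ^ s * y ^ s := by positivity
      linarith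
    · have h4 : (y + 1) ^ s ≤ (2 * y) ^ s := pow_le_pow_left₀ (by linarith) (by linarith) s
      rw [mul_pow] at h4
      have h5 : (0 : ℝ) ≤ 2 ^ s := by positivity
      linarith
  have hbadc : ((X.filter fun x => ¬ Prm x).card : ℝ) ≤
      16 / 625 * (L / W) ^ s + 1 / 10 * (L / W) ^ s := by
    calc ((X.filter fun x => ¬ Prm x).card : ℝ)
        ≤ ((((Finset.Icc 5 P).filter fun p => p.Prime ∧ Nat.Coprime W p).biUnion fun p =>
          Fintype.piFinset fun j => (TT (u j) L W ((a j).val : ℤ)).filter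
            fun n => (p : ℤ) ∣ n).card : ℝ) := by exact_mod_cast Finset.card_le_card hbad
      _ ≤ ∑ p ∈ (Finset.Icc 5 P).filter fun p => p.Prime ∧ Nat.Coprime W p,
          ((Fintype.piFinset fun j => (TT (u j) L W ((a j).val : ℤ)).filter
            fun n => (p : ℤ) ∣ n).card : ℝ) := by exact_mod_cast Finset.card_biUnion_le
      _ ≤ ∑ p ∈ (Finset.Icc 5 P).filter fun p => p.Prime ∧ Nat.Coprime W p,
          (2 ^ s * ((L / W) ^ s * (1 / (p : ℝ) ^ s)) + 2 ^ s) := Finset.sum_le_sum hone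
      _ ≤ ∑ p ∈ Finset.Icc 5 P, (2 ^ s * ((L / W) ^ s * (1 / (p : ℝ) ^ s)) + 2 ^ s) := by
          refine Finset.sum_le_sum_of_subset_of_nonneg (Finset.filter_subset _ _)
            fun p _ _ => ?_
          positivity
      _ = (L / W) ^ s * (2 ^ s * ∑ p ∈ Finset.Icc 5 P, 1 / (p : ℝ) ^ s) +
          ((Finset.Icc 5 P).card : ℝ) * 2 ^ s := by
          rw [Finset.sum_add_distrib, Finset.sum_const, nsmul_eq_mul, Finset.mul_sum,
            Finset.mul_sum]
          congr 1
          exact Finset.sum_congr rfl fun p _ => by ring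
      _ ≤ (L / W) ^ s * (16 / 625) + 1 / 10 * (L / W) ^ s := by
          refine add_le_add (mul_le_mul_of_nonneg_left (sum_pow_le hs P) (by positivity)) ?_
          have h1 : ((Finset.Icc 5 P).card : ℝ) ≤ (κ + 1) * L := by
            rw [Nat.card_Icc]
            have h2 : P + 1 - 5 ≤ P := by omega
            have h3 : ((P + 1 - 5 : ℕ) : ℝ) ≤ P := by exact_mod_cast h2
            exact h3.trans (Nat.floor_le (by positivity))
          have h4 : (κ + 1) * L * 2 ^ s * 10 * W ^ s ≤ L ^ s := by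
            have h5 : L ^ 2 ≤ L ^ s := pow_le_pow_right₀ hL1 (by omega)
            have h6 : (20 * 2 ^ s * (κ + 2) * W ^ s) * L ≤ L * L :=
              mul_le_mul_of_nonneg_right hL3 (by linarith)
            have h7 : (κ + 1) * L * 2 ^ s * 10 * W ^ s ≤ (20 * 2 ^ s * (κ + 2) * W ^ s) * L := by
              have h8 : 0 ≤ L * 2 ^ s * (W : ℝ) ^ s := by positivity
              nlinarith
            calc (κ + 1) * L * 2 ^ s * 10 * W ^ s ≤ (20 * 2 ^ s * (κ + 2) * W ^ s) * L := h7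
              _ ≤ L * L := h6
              _ = L ^ 2 := by ring
              _ ≤ L ^ s := h5
          have h9 : (κ + 1) * L * 2 ^ s ≤ 1 / 10 * (L / W) ^ s := by
            rw [div_pow, ← mul_div_assoc, le_div_iff₀ (by positivity)]
            linarith
          refine le_trans (mul_le_mul_of_nonneg_right h1 (by positivity)) h9
      _ = 16 / 625 * (L / W) ^ s + 1 / 10 * (L / W) ^ s := by ring
  have hsplit : ((X.filter fun x => Prm x).card : ℝ) + ((X.filter fun x => ¬ Prm x).card : ℝ) =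
      X.card := by exact_mod_cast Finset.card_filter_add_card_filter_not (s := X) (fun x => Prm x)
  have hpos : 0 ≤ (L / W) ^ s := by positivity
  linarith

end Pool.Agent.H20.RQ
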